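import Pool.Agent.Lib.helper10.CisMem

namespace Pool.Agent.Results.MP_679d83_lc.CoNPComplete

open Pool.Agent.Cx Pool.Agent.Cis Polynomial

/-- `M` is the adjacency matrix of a triangle graph -/
def TriRec (M : List (List Bool)) : Prop := IsGraph M ∧ Triangle (graphOf M)

def ver (z : List (List Bool) × List Bool) : Prop :=
  ¬ IsGraph z.1 ∨ (mI z.1 z.2 ∧ ∃ u < z.1.length, ∃ v < z.1.length, ent z.1 u v = true ∧
    ¬ z.2.getD u false = true ∧ ¬ z.2.getD v false = true ∧
    ¬ ∃ i < z.1.length, z.2.getD i false = true ∧ ent z.1 u i = true ∧ ent z.1 v i = true)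

lemma ver_iff {M : List (List Bool)} (h : IsGraph M) (s : List Bool) : ver (M, s) ↔
    Maximal (graphOf M).IsIndepSet (vset _ s) ∧ ∃ u v, (graphOf M).Adj u v ∧ u ∉ vset _ s ∧
      v ∉ vset _ s ∧ ¬ ∃ i ∈ vset _ s, (graphOf M).Adj u i ∧ (graphOf M).Adj v i := by
  simp only [ver, h, not_true, false_or, mI_iff h]
  simp only [adj_iff h, vset, Fin.exists_iff, Set.mem_ofPred_eq, exists_prop]

theorem result : CoNPComplete (Lang TriRec) := by
  classical
  refine ⟨inCoNP_Lang (V := fun z => decide (ver z)) (PP.decide ?_) (4 * X + 1) (fun M hM => ?_)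
    fun M z h g => ?_,
    (hard_between (Q := Triangle) (fun _ _ h => h.edge.tri) fun _ _ => id).coNPHard⟩
  · have := pp_isGraph
    unfold ver; fun_prop
  · by_cases g : IsGraph M
    · simp only [TriRec, g, true_and, Triangle, not_forall] at hM
      obtain ⟨S, a, u, v, b1, b2, b3, b4⟩ := hM
      obtain ⟨s, s1, rfl⟩ := exists_vset S
      have := length_lt_size M
      exact ⟨s, by simp; omega, decide_eq_true ((ver_iff g s).2 ⟨a, u, v, b1, b2, b3, b4⟩)⟩
    · exact ⟨[], by simp, by simp [ver, g]⟩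
  · obtain ⟨a, u, v, b1, b2, b3, b4⟩ := (ver_iff g.1 z).1 (of_decide_eq_true h)
    exact b4 (g.2 _ a u v b1 b2 b3)

end Pool.Agent.Results.MP_679d83_lc.CoNPComplete
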